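import Mathlib
import Pool.Agent.Helper23K9.LR.Main
import Pool.Agent.U299.LF.Final

set_option autoImplicit false

namespace Pool.Agent.Results.MP_cf641d_an.ManhattanRigid

open Pool.Agent.Helper23K9.LR

/-- For every `d ≥ 2` the space `ℝ^d` with the Manhattan distance `∑ |x_i - y_i|` is Lipschitz-free rigid: every
surjective linear isometry `T` of the Lipschitz-free space `𝓕(ℝ^d_1)` is `ε T_φ` for a sign `ε` and a surjective
dilation `φ`. -/
theorem result (d : ℕ) (hd : 2 ≤ d) : LipFreeRigid (PiLp 1 (fun _ : Fin d => ℝ)) := by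
  have _ : Nontrivial (Fin d) := Fin.nontrivial_iff_two_le.2 hd
  exact Pool.Agent.U299.LF.rigid_l1

end Pool.Agent.Results.MP_cf641d_an.ManhattanRigid
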